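import Pool.Graph.R_pool_sql_team_seeded_47a924f7.T6.H13.CC.Cnt
import Pool.Graph.R_pool_sql_team_seeded_47a924f7.T6.H13.CC.Wei

/-!
# MP_fb6b45_ag: the degrees of tame functions on an ordinary curve of genus one in characteristic two

Let `K` be an algebraically closed field of characteristic two and `W` an elliptic curve over `K`
with `j(W) ≠ 0`. Let `f` be a nonconstant rational function on `W` all of whose ramification
indices are odd (that is, `f` is tamely ramified), `d` its degree and `N` the number of points of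
`W` at which the ramification index is `3` modulo `4`. Then `d + N` is divisible by four.

If all ramification indices are `1` or `3`, then `N = d` by the formula of Riemann and Hurwitz, so
`d` is even: there is no function of odd degree with all ramification indices in `{1, 3}`, and in
particular none of degree five and of type `(3,3,3,3,3)`, which is Q1.

The proof extends the argument of the library for the type `(3,3,3,3,3)` to all odd indices: the
poles of the function `ρ` are the poles of `f` with index `1` modulo `4` and the points with a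
finite value and index `3` modulo `4`, and their number is divisible by four.
-/

set_option autoImplicit false
set_option linter.unusedSectionVars false

open Module IntermediateField FF Pool.Agent.T6.H13.CC Pool.Agent.T6.H13.CC.Cur

namespace Pool.Agent.Results.MP_fb6b45_ag.TameParity

universe u

/-- All ramification indices of `f` are odd. -/
def OddRam {k L : Type u} [Field k] [Field L] [Algebra k L] (f : L) : Prop :=
  ∀ (z : Option k) (P : Place k L), 0 < mult f z P → Odd (mult f z P)

/-- The set of the places at which the ramification index of `f` is `3` modulo `4`. -/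
def Three {k L : Type u} [Field k] [Field L] [Algebra k L] (f : L) : Set (Place k L) :=
  {P | ∃ z : Option k, 0 < mult f z P ∧ mult f z P % 4 = 3}

section

variable {k L : Type u} [Field k] [IsAlgClosed k] [Field L] [Algebra k L] {C : Cur k L}
  [CharP L 2]

/-- The set `S` of the parity theorem. -/
def SP (k : Type u) {L : Type u} [Field k] [Field L] [Algebra k L] (f : L) (P : Place k L) :
    Prop :=
  (P.ord f < 0 ∧ P.ord f % 4 = 3) ∨
    ∃ c : k, 0 < P.ord (f - algebraMap k L c) ∧ P.ord (f - algebraMap k L c) % 4 = 3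

theorem OddRam.fin {f : L} (H : OddRam (k := k) f) (P : Place k L) (c : k)
    (h : 0 < P.ord (f - algebraMap k L c)) : Odd (P.ord (f - algebraMap k L c)) :=
  H (some c) P h

theorem OddRam.inf {f : L} (H : OddRam (k := k) f) (P : Place k L) (h : P.ord f < 0) :
    Odd (P.ord f) := by
  have h1 : 0 < mult f (none : Option k) P := by
    change 0 < P.ord f⁻¹
    rw [P.ord_inv]; omega
  have h2 := H none P h1
  change Odd (P.ord f⁻¹) at h2
  rw [P.ord_inv] at h2
  simpa using h2

theorem der_ne {f : L} (C : Cur k L) (H : OddRam (k := k) f) (hc : ∀ c : k, f ≠ algebraMap k L c) :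
    C.der f ≠ 0 := by
  have hx : C.der C.x ≠ 0 := by rw [C.der_x]; exact C.x0
  obtain ⟨S, -, -, hS⟩ := C.zeros_der C.x hx
  have hpos := C.finrank_pos' C.x hx
  rw [← hS] at hpos
  have hne : S.Nonempty := by
    rw [Finset.nonempty_iff_ne_empty]
    rintro rfl
    simp at hpos
  obtain ⟨P, -⟩ := hne
  obtain ⟨t, τ, G⟩ := C.good P
  by_cases hinf : P.ord f < 0
  · obtain ⟨m, hm⟩ := H.inf P hinf
    refine (G.ord_der_odd (m := m) ?_ hm).1
    rintro rfl
    rw [P.ord_zero] at hinf
    exact lt_irrefl _ hinf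
  · obtain ⟨c, h1⟩ := C.res P f (Or.inr (by omega))
    have h2 : f - algebraMap k L c ≠ 0 := sub_ne_zero.2 (hc c)
    rw [near_iff h2] at h1
    obtain ⟨m, hm⟩ := H.fin P c (by omega)
    have h3 := (G.ord_der_odd (m := m) h2 hm).1
    rwa [sub_eq_add_neg, C.der_add, ← map_neg, C.der_const, add_zero] at h3

theorem place_case {f g : L} (hf : C.der f ≠ 0) (hg : C.der f = C.x * g ^ 2)
    (H : OddRam (k := k) f) (P : Place k L) :
    (SP k f P ∧ P.ord (C.der g / g + C.eta) = -1 ∧
      Near P 0 (C.der (C.kap f) ^ 2 / C.der f + (C.der g / g + C.eta) +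
        (C.der g / g + C.eta) ^ 2)) ∨
    (Near P 0 (C.der g / g + C.eta) ∧ Near P 0 (C.der (C.kap f) ^ 2 / C.der f) ∧
      ∃ m : ℤ, P.ord (C.der f) = 4 * m) := by
  obtain ⟨t, τ, G⟩ := C.good P
  have h2 := two0 L
  have hf0 : f ≠ 0 := by
    rintro rfl
    exact hf C.der_zero
  by_cases hinf : P.ord f < 0
  · obtain ⟨A, u, h1, -⟩ := G.dec_t f
    obtain ⟨m', hm'⟩ := H.inf P hinf
    have h4 := hm'
    rw [h1] at h4 hf0
    obtain ⟨h5, h6, h7⟩ := G.split_odd (m := m') hf0 h4
    rcases Int.even_or_odd' m' with ⟨m, rfl | rfl⟩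
    · right
      have hA : Near P (2 * m) (C.der A) := by
        have := G.near_der h5
        simpa using this
      obtain ⟨h8, h9, h10⟩ := G.even_case h1 hg h6 (m := m) h7 hA
      exact ⟨h8, h9, _, h10⟩
    · left
      have hA : Near P (2 * m + 2) (C.der A) := by
        have h8 : Near P (2 * (m + 1)) A := by
          have e : 2 * (m + 1) = 2 * m + 1 + 1 := by ring
          rw [e]; exact h5
        have := G.near_der_even h8
        rwa [mul_add, mul_one] at this
      obtain ⟨h8, h9⟩ := G.odd_case h1 hg h6 (m := m) h7 hA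
      exact ⟨Or.inl ⟨hinf, by omega⟩, h8, h9⟩
  · have hreg : P.Reg f := Or.inr (by omega)
    obtain ⟨c, hc⟩ := C.res P f hreg
    have hfc := sub_ne f hf c
    have hpos : 0 < P.ord (f - algebraMap k L c) := by
      have := (near_iff hfc).1 hc
      omega
    obtain ⟨d, hd⟩ := sqrt_const c
    obtain ⟨A, u, h1, -⟩ := G.dec_t (f - algebraMap k L c)
    have hfe : f = (A + algebraMap k L d) ^ 2 + t * u ^ 2 := by
      rw [← hd, map_pow] at h1
      linear_combination h1 - A * algebraMap k L d * h2
    have hdA : C.der (A + algebraMap k L d) = C.der A := by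
      rw [C.der_add, C.der_const, add_zero]
    obtain ⟨m', hm'⟩ := H.fin P c hpos
    have h4 := hm'
    rw [h1] at h4 hfc
    obtain ⟨h5, h6, h7⟩ := G.split_odd (m := m') hfc h4
    rcases Int.even_or_odd' m' with ⟨m, rfl | rfl⟩
    · right
      have hA : Near P (2 * m) (C.der (A + algebraMap k L d)) := by
        rw [hdA]
        have := G.near_der h5
        simpa using this
      obtain ⟨h8, h9, h10⟩ := G.even_case hfe hg h6 (m := m) h7 hA
      exact ⟨h8, h9, _, h10⟩
    · left
      have hA : Near P (2 * m + 2) (C.der (A + algebraMap k L d)) := by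
        rw [hdA]
        have h8 : Near P (2 * (m + 1)) A := by
          have e : 2 * (m + 1) = 2 * m + 1 + 1 := by ring
          rw [e]; exact h5
        have := G.near_der_even h8
        rwa [mul_add, mul_one] at this
      obtain ⟨h8, h9⟩ := G.odd_case hfe hg h6 (m := m) h7 hA
      exact ⟨Or.inr ⟨c, hpos, by omega⟩, h8, h9⟩

/-- **The parity theorem** for all odd ramification indices. -/
theorem parity {f : L} (hf : C.der f ≠ 0) (H : OddRam (k := k) f) (S : Finset (Place k L))
    (hS : ∀ P, P ∈ S ↔ SP k f P) : 4 ∣ S.card := by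
  have h2 := two0 L
  obtain ⟨g, -, hg⟩ := C.dec_spec f
  have hg0 : g ≠ 0 := by
    rintro rfl
    apply hf
    rw [hg]; ring
  have hcase := fun P => place_case hf hg H P
  set ρ := C.der g / g + C.eta with hρ
  set h := C.kap f with hh
  have hdρ : C.der ρ = ρ + ρ ^ 2 := by
    rw [hρ, C.der_add, C.der_log g hg0, C.der_eta]
    linear_combination (- C.der g / g * C.eta) * h2
  -- the function `s`
  have hs0 : C.der h ^ 2 / C.der f + ρ + ρ ^ 2 = 0 := by
    set s := C.der h ^ 2 / C.der f + ρ + ρ ^ 2 with hs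
    by_contra hne
    have hds : C.der s = s := by
      have e : C.der h ^ 2 / C.der f = (C.der h / C.der f) ^ 2 * C.der f := by
        field_simp
      rw [hs, add_assoc, C.der_add, ← hdρ, C.der_der, e, C.der_sq_mul, C.der_der]
    have hds0 : C.der s ≠ 0 := by rw [hds]; exact hne
    obtain ⟨T, hT1, hT2⟩ := C.poles_der s hds0
    have hpos := C.finrank_pos' s hds0
    rw [← hT2] at hpos
    have hTne : T.Nonempty := by
      rw [Finset.nonempty_iff_ne_empty]
      rintro rfl
      simp at hpos
    obtain ⟨P, hP⟩ := hTne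
    have hPn := (hT1 P).1 hP
    have hreg : Near P 0 s := by
      rcases hcase P with ⟨-, -, h3⟩ | ⟨h3, h4, -⟩
      · exact h3
      · exact (h4.add h3).add (by simpa using h3.sq)
    rw [near_iff hne] at hreg
    omega
  have hmain : C.der h ^ 2 = ρ * (1 + ρ) * C.der f := by
    have e : C.der h ^ 2 = C.der h ^ 2 / C.der f * C.der f := by field_simp
    rw [e]
    linear_combination (C.der f) * hs0 - (ρ + ρ ^ 2) * C.der f * h2
  rcases S.eq_empty_or_nonempty with rfl | hSne
  · simp
  -- the poles of `ρ`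
  have hord : ∀ P ∈ S, P.ord ρ = -1 := by
    intro P hP
    rcases hcase P with ⟨-, h3, -⟩ | ⟨h3, -, h5⟩
    · exact h3
    · exfalso
      obtain ⟨m, hm⟩ := h5
      obtain ⟨t, τ, G⟩ := C.good P
      rcases (hS P).1 hP with ⟨-, h6⟩ | ⟨c, -, h6⟩
      · have h7 := G.ord_der_odd (m := P.ord f / 2) (s := f)
          (by rintro rfl; exact hf C.der_zero) (by omega)
        omega
      · have h7 := G.ord_der_odd (m := P.ord (f - algebraMap k L c) / 2)
          (s := f - algebraMap k L c) (sub_ne f hf c) (by omega)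
        have h8 : C.der (f - algebraMap k L c) = C.der f := by
          rw [sub_eq_add_neg, C.der_add, ← map_neg, C.der_const, add_zero]
        rw [h8] at h7
        omega
  obtain ⟨P0, hP0⟩ := hSne
  have hρ0 : ρ ≠ 0 := by
    intro h3
    have := hord P0 hP0
    rw [h3, P0.ord_zero] at this
    omega
  have hρ1 : 1 + ρ ≠ 0 := by
    intro h3
    have h4 : ρ = -1 := by linear_combination h3
    have := hord P0 hP0
    rw [h4, P0.ord_neg_one] at this
    omega
  have hdρ0 : C.der ρ ≠ 0 := by
    rw [hdρ]
    have : ρ + ρ ^ 2 = ρ * (1 + ρ) := by ring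
    rw [this]
    exact mul_ne_zero hρ0 hρ1
  have hdh0 : C.der h ≠ 0 := by
    intro h3
    rw [h3, zero_pow two_ne_zero] at hmain
    exact mul_ne_zero (mul_ne_zero hρ0 hρ1) hf hmain.symm
  obtain ⟨T, hT1, hT2⟩ := C.poles_der ρ hdρ0
  have hTS : T = S := by
    ext P
    rw [hT1, hS]
    constructor
    · intro h3
      rcases hcase P with ⟨h4, -, -⟩ | ⟨h4, -, -⟩
      · exact h4
      · rw [near_iff hρ0] at h4
        omega
    · intro h3
      rw [hord P ((hS P).2 h3)]
      norm_num
  subst hTS
  have hcard : (T.card : ℤ) = finrank k⟮ρ⟯ L := by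
    rw [← hT2, Finset.sum_congr rfl (fun P hP => by rw [hord P hP])]
    simp
  obtain ⟨Z, hZ1, -, hZ2⟩ := C.zeros_der ρ hdρ0
  have h4 : (4 : ℤ) ∣ T.card := by
    rw [hcard, ← hZ2]
    apply Finset.dvd_sum
    intro P hP
    have hPpos := (hZ1 P).1 hP
    obtain ⟨t, τ, G⟩ := C.good P
    rcases hcase P with ⟨-, h3, -⟩ | ⟨-, -, m, hm⟩
    · omega
    · have h5 := congrArg P.ord hmain
      have h6 := (P.ord_add_eq (f := 1) (g := ρ) one_ne_zero hρ0 (by rw [P.ord_one]; exact hPpos)).2
      rw [P.ord_one] at h6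
      rw [P.ord_pow, P.ord_mul (mul_ne_zero hρ0 hρ1) hf, P.ord_mul hρ0 hρ1, h6, hm] at h5
      push_cast at h5
      obtain ⟨r, hr⟩ := G.even_der hdh0
      exact ⟨r - m, by omega⟩
  exact_mod_cast h4

/-- At a finite value the order of `∂ f` is the index minus one. -/
theorem ord_fin {f : L} (hf : C.der f ≠ 0) (H : OddRam (k := k) f) (P : Place k L) (c : k)
    (h : 0 < P.ord (f - algebraMap k L c)) :
    P.ord (C.der f) = P.ord (f - algebraMap k L c) - 1 := by
  obtain ⟨t, τ, G⟩ := C.good P
  obtain ⟨m, hm⟩ := H.fin P c h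
  have h7 := (G.ord_der_odd (m := m) (sub_ne f hf c) hm).2
  have h8 : C.der (f - algebraMap k L c) = C.der f := by
    rw [sub_eq_add_neg, C.der_add, ← map_neg, C.der_const, add_zero]
  rw [h8] at h7
  omega

theorem ord_inf {f : L} (hf : C.der f ≠ 0) (H : OddRam (k := k) f) (P : Place k L)
    (h : P.ord f < 0) : P.ord (C.der f) = P.ord f - 1 := by
  obtain ⟨t, τ, G⟩ := C.good P
  obtain ⟨m, hm⟩ := H.inf P h
  have h7 := (G.ord_der_odd (m := m) (s := f) (by rintro rfl; exact hf C.der_zero) hm).2
  omega

/-- Every place is a pole of `f` or `f` has a finite value there. -/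
theorem cases_val {f : L} (hf : C.der f ≠ 0) (P : Place k L) :
    P.ord f < 0 ∨ ∃ c : k, 0 < P.ord (f - algebraMap k L c) := by
  by_cases hinf : P.ord f < 0
  · exact Or.inl hinf
  · right
    obtain ⟨c, hc⟩ := C.res P f (Or.inr (by omega))
    have := (near_iff (sub_ne f hf c)).1 hc
    exact ⟨c, by omega⟩

theorem not_both {f : L} (hf : C.der f ≠ 0) (P : Place k L) (c : k)
    (h1 : 0 < P.ord (f - algebraMap k L c)) (h2 : P.ord f < 0) : False := by
  have hf0 : f ≠ 0 := by
    rintro rfl
    exact hf C.der_zero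
  by_cases hc0 : c = 0
  · subst hc0
    rw [map_zero, sub_zero] at h1
    omega
  · have h4 := (P.ord_add_eq (f := f) (g := -algebraMap k L c) hf0
      (neg_ne_zero.2 ((map_ne_zero _).2 hc0)) (by rw [P.ord_neg, P.ord_const hc0]; omega)).2
    rw [← sub_eq_add_neg] at h4
    omega

/-- The counting data of a tame function. -/
theorem count {f : L} (hf : C.der f ≠ 0) (H : OddRam (k := k) f) :
    ∃ F P1 P3 : Finset (Place k L),
      (∀ P, P ∈ F ↔ ∃ c : k, 0 < P.ord (f - algebraMap k L c) ∧
        P.ord (f - algebraMap k L c) % 4 = 3) ∧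
      (∀ P, P ∈ P1 ↔ P.ord f < 0 ∧ P.ord f % 4 = 3) ∧
      (∀ P, P ∈ P3 ↔ P.ord f < 0 ∧ P.ord f % 4 = 1) ∧
      Disjoint F P1 ∧ Disjoint F P3 ∧ Disjoint P1 P3 ∧
      (∑ P ∈ P1, - P.ord f) + (∑ P ∈ P3, - P.ord f) = (finrank k⟮f⟯ L : ℤ) := by
  classical
  obtain ⟨T, hT1, hT2⟩ := C.poles_der f hf
  obtain ⟨Z, hZ1, -, hZ2⟩ := C.zeros_der (C.der f) (by rw [C.der_der]; exact hf)
  refine ⟨Z.filter fun P => ∃ c : k, 0 < P.ord (f - algebraMap k L c) ∧
        P.ord (f - algebraMap k L c) % 4 = 3, T.filter fun P => P.ord f % 4 = 3,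
        T.filter fun P => ¬ P.ord f % 4 = 3, ?_, ?_, ?_, ?_, ?_, ?_, ?_⟩
  · intro P
    rw [Finset.mem_filter, hZ1]
    constructor
    · exact fun h => h.2
    · rintro ⟨c, h1, h2⟩
      refine ⟨?_, c, h1, h2⟩
      rw [ord_fin hf H P c h1]
      omega
  · intro P
    rw [Finset.mem_filter, hT1]
  · intro P
    rw [Finset.mem_filter, hT1]
    constructor
    · rintro ⟨h1, h2⟩
      obtain ⟨m, hm⟩ := H.inf P h1
      exact ⟨h1, by omega⟩
    · rintro ⟨h1, h2⟩
      exact ⟨h1, by omega⟩
  · rw [Finset.disjoint_left]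
    intro P h1 h2
    obtain ⟨-, c, h1, -⟩ := Finset.mem_filter.1 h1
    rw [Finset.mem_filter, hT1] at h2
    exact not_both hf P c h1 h2.1
  · rw [Finset.disjoint_left]
    intro P h1 h2
    obtain ⟨-, c, h1, -⟩ := Finset.mem_filter.1 h1
    rw [Finset.mem_filter, hT1] at h2
    exact not_both hf P c h1 h2.1
  · exact Finset.disjoint_filter_filter_not _ _ _
  · rw [← hT2, Finset.sum_filter_add_sum_filter_not]

/-- The main formula. -/
theorem four_dvd {f : L} (hf : C.der f ≠ 0) (H : OddRam (k := k) f) :
    (Three (k := k) f).Finite ∧ 4 ∣ (Three (k := k) f).ncard + finrank k⟮f⟯ L := by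
  classical
  obtain ⟨F, P1, P3, hF, hP1, hP3, d1, d2, d3, hsum⟩ := count hf H
  have hT : Three (k := k) f = ((F ∪ P3 : Finset (Place k L)) : Set (Place k L)) := by
    ext P
    rw [Finset.mem_coe, Finset.mem_union, hF, hP3]
    constructor
    · rintro ⟨z, h1, h2⟩
      cases z with
      | none =>
        right
        change 0 < P.ord f⁻¹ at h1
        change P.ord f⁻¹ % 4 = 3 at h2
        rw [P.ord_inv] at h1 h2
        omega
      | some c => exact Or.inl ⟨c, h1, h2⟩
    · rintro (⟨c, h1, h2⟩ | ⟨h1, h2⟩)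
      · exact ⟨some c, h1, h2⟩
      · refine ⟨none, ?_, ?_⟩
        · change 0 < P.ord f⁻¹
          rw [P.ord_inv]; omega
        · change P.ord f⁻¹ % 4 = 3
          rw [P.ord_inv]; omega
  have hpar : 4 ∣ (F ∪ P1).card := by
    refine parity (C := C) hf H _ fun P => ?_
    rw [Finset.mem_union, hF, hP1, or_comm]
    exact Iff.rfl
  rw [Finset.card_union_of_disjoint d1] at hpar
  refine ⟨hT ▸ Finset.finite_toSet _, ?_⟩
  rw [hT, Set.ncard_coe_finset, Finset.card_union_of_disjoint d2]
  have h1 : (4 : ℤ) ∣ (∑ P ∈ P1, - P.ord f) - P1.card := by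
    have e : (∑ P ∈ P1, - P.ord f) - (P1.card : ℤ) = ∑ P ∈ P1, (- P.ord f - 1) := by
      rw [Finset.sum_sub_distrib]; simp
    rw [e]
    refine Finset.dvd_sum fun P hP => ?_
    have := ((hP1 P).1 hP).2
    omega
  have h3 : (4 : ℤ) ∣ (∑ P ∈ P3, - P.ord f) - 3 * P3.card := by
    have e : (∑ P ∈ P3, - P.ord f) - 3 * (P3.card : ℤ) = ∑ P ∈ P3, (- P.ord f - 3) := by
      rw [Finset.sum_sub_distrib]; simp [mul_comm]
    rw [e]
    refine Finset.dvd_sum fun P hP => ?_
    have := ((hP3 P).1 hP).2
    omega
  omega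

/-- If all indices are one and three, then there are `d` points with index three. -/
theorem three_eq {f : L} (hf : C.der f ≠ 0)
    (H13 : ∀ (z : Option k) (P : Place k L), 0 < mult f z P → mult f z P = 1 ∨ mult f z P = 3) :
    (Three (k := k) f).ncard = finrank k⟮f⟯ L := by
  classical
  have H : OddRam (k := k) f := by
    intro z P h
    rcases H13 z P h with h1 | h1
    · rw [h1]; exact odd_one
    · rw [h1]; exact ⟨1, by norm_num⟩
  obtain ⟨F, P1, P3, hF, hP1, hP3, d1, d2, d3, hsum⟩ := count hf H
  have hT : Three (k := k) f = ((F ∪ P3 : Finset (Place k L)) : Set (Place k L)) := by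
    ext P
    rw [Finset.mem_coe, Finset.mem_union, hF, hP3]
    constructor
    · rintro ⟨z, h1, h2⟩
      cases z with
      | none =>
        right
        change 0 < P.ord f⁻¹ at h1
        change P.ord f⁻¹ % 4 = 3 at h2
        rw [P.ord_inv] at h1 h2
        omega
      | some c => exact Or.inl ⟨c, h1, h2⟩
    · rintro (⟨c, h1, h2⟩ | ⟨h1, h2⟩)
      · exact ⟨some c, h1, h2⟩
      · refine ⟨none, ?_, ?_⟩
        · change 0 < P.ord f⁻¹
          rw [P.ord_inv]; omega
        · change P.ord f⁻¹ % 4 = 3
          rw [P.ord_inv]; omega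
  have hfin : ∀ (P : Place k L) (c : k), 0 < P.ord (f - algebraMap k L c) →
      P.ord (f - algebraMap k L c) = 1 ∨ P.ord (f - algebraMap k L c) = 3 :=
    fun P c h => H13 (some c) P h
  have hinf : ∀ P : Place k L, P.ord f < 0 → P.ord f = -1 ∨ P.ord f = -3 := by
    intro P h
    have h1 : 0 < mult f (none : Option k) P := by
      change 0 < P.ord f⁻¹
      rw [P.ord_inv]; omega
    have h2 := H13 none P h1
    change P.ord f⁻¹ = 1 ∨ P.ord f⁻¹ = 3 at h2
    rw [P.ord_inv] at h2
    omega
  have hdd : C.der (C.der f) ≠ 0 := by rw [C.der_der]; exact hf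
  obtain ⟨Z, hZ1, -, hZ2⟩ := C.zeros_der (C.der f) hdd
  obtain ⟨Y, hY1, hY2⟩ := C.poles_der (C.der f) hdd
  have hZF : Z = F := by
    ext P
    rw [hZ1, hF]
    constructor
    · intro h
      rcases cases_val hf P with h1 | ⟨c, h1⟩
      · rw [ord_inf hf H P h1] at h
        omega
      · rw [ord_fin hf H P c h1] at h
        rcases hfin P c h1 with h2 | h2
        · omega
        · exact ⟨c, h1, by rw [h2]; norm_num⟩
    · rintro ⟨c, h1, h2⟩
      rw [ord_fin hf H P c h1]
      rcases hfin P c h1 with h3 | h3 <;> omega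
  have hYP : Y = P1 ∪ P3 := by
    ext P
    rw [hY1, Finset.mem_union, hP1, hP3]
    constructor
    · intro h
      rcases cases_val hf P with h1 | ⟨c, h1⟩
      · rcases hinf P h1 with h2 | h2
        · exact Or.inl ⟨h1, by rw [h2]; norm_num⟩
        · exact Or.inr ⟨h1, by rw [h2]; norm_num⟩
      · rw [ord_fin hf H P c h1] at h
        omega
    · intro h
      have h1 : P.ord f < 0 := by
        rcases h with h | h
        · exact h.1
        · exact h.1
      rw [ord_inf hf H P h1]
      omega
  have e1 : ∑ P ∈ Z, P.ord (C.der f) = 2 * (F.card : ℤ) := by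
    rw [hZF, Finset.sum_congr rfl (g := fun _ => (2 : ℤ))]
    · simp [mul_comm]
    · intro P hP
      obtain ⟨c, h1, h2⟩ := (hF P).1 hP
      rw [ord_fin hf H P c h1]
      rcases hfin P c h1 with h3 | h3 <;> omega
  have e2 : ∑ P ∈ Y, - P.ord (C.der f) = 2 * (P1.card : ℤ) + 4 * P3.card := by
    rw [hYP, Finset.sum_union d3, Finset.sum_congr (s₁ := P1) rfl (g := fun _ => (2 : ℤ)),
      Finset.sum_congr (s₁ := P3) rfl (g := fun _ => (4 : ℤ))]
    · simp [mul_comm]
    · intro P hP
      obtain ⟨h1, h2⟩ := (hP3 P).1 hP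
      rw [ord_inf hf H P h1]
      rcases hinf P h1 with h3 | h3 <;> omega
    · intro P hP
      obtain ⟨h1, h2⟩ := (hP1 P).1 hP
      rw [ord_inf hf H P h1]
      rcases hinf P h1 with h3 | h3 <;> omega
  have e3 : (∑ P ∈ P1, - P.ord f) = P1.card := by
    rw [Finset.sum_congr rfl (g := fun _ => (1 : ℤ))]
    · simp
    · intro P hP
      obtain ⟨h1, h2⟩ := (hP1 P).1 hP
      rcases hinf P h1 with h3 | h3 <;> omega
  have e4 : (∑ P ∈ P3, - P.ord f) = 3 * P3.card := by
    rw [Finset.sum_congr rfl (g := fun _ => (3 : ℤ))]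
    · simp [mul_comm]
    · intro P hP
      obtain ⟨h1, h2⟩ := (hP3 P).1 hP
      rcases hinf P h1 with h3 | h3 <;> omega
  rw [hT, Set.ncard_coe_finset, Finset.card_union_of_disjoint d2]
  rw [e3, e4] at hsum
  rw [hZ2] at e1
  rw [hY2] at e2
  push_cast at *
  omega

end

/-- Let `W` be an elliptic curve with `j ≠ 0` over an algebraically closed field `K` of
characteristic two.

(1) If `f` is a nonconstant function on `W` all of whose ramification indices are odd, then the
number of points with ramification index `3` modulo `4` plus the degree of `f` is divisible by four.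

(2) If all ramification indices of a nonconstant function `f` are one and three, then the degree
of `f` is even.

(3) There is no function of type `(3,3,3,3,3)` on `W`. -/
theorem result (K : Type u) [Field K] [IsAlgClosed K] [CharP K 2] (W : WeierstrassCurve K)
    [W.IsElliptic] (hj : W.j ≠ 0) :
    (∀ f : W.toAffine.FunctionField, (∀ c : K, f ≠ algebraMap K W.toAffine.FunctionField c) →
      OddRam (k := K) f → (Three (k := K) f).Finite ∧
        4 ∣ (Three (k := K) f).ncard + Module.finrank K⟮f⟯ W.toAffine.FunctionField) ∧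
    (∀ f : W.toAffine.FunctionField, (∀ c : K, f ≠ algebraMap K W.toAffine.FunctionField c) →
      (∀ (z : Option K) (P : Place K W.toAffine.FunctionField), 0 < mult f z P →
        mult f z P = 1 ∨ mult f z P = 3) →
      Even (Module.finrank K⟮f⟯ W.toAffine.FunctionField)) ∧
    ¬ ∃ f : W.toAffine.FunctionField, Type33333 (k := K) f := by
  obtain ⟨C⟩ := nonempty_cur W hj
  have hch : CharP W.toAffine.FunctionField 2 :=
    charP_of_injective_algebraMap (algebraMap K W.toAffine.FunctionField).injective 2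
  refine ⟨?_, ?_, ?_⟩
  · intro f hc H
    exact four_dvd (C := C) (der_ne C H hc) H
  · intro f hc H13
    have H : OddRam (k := K) f := by
      intro z P h
      rcases H13 z P h with h1 | h1
      · rw [h1]; exact odd_one
      · rw [h1]; exact ⟨1, by norm_num⟩
    have hf := der_ne C H hc
    have h1 := (four_dvd (C := C) hf H).2
    rw [three_eq (C := C) hf H13] at h1
    rw [even_iff_two_dvd]
    omega
  · rintro ⟨f, hf⟩
    exact C.no_type f hf

end Pool.Agent.Results.MP_fb6b45_ag.TameParity
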